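import Mathlib

/-!
# MP_e0e142_ag, Q1: a disconnected Gaussian double Markovian model

Let `n = 12`, and let `H` and `G` be the circulant graphs on `ℤ/12` in which `i` and `j` are
adjacent iff their cyclic distance is in `{1, 2}` and in `{1, 3, 4, 6}` respectively.
With `s = √7` let `Σ₀` be the circulant matrix with entries `1, -s/4, 1/4` at the cyclic distances
`0, 1, 2` (and `0` elsewhere).  It is positive definite, since
`xᵀ Σ₀ x = Σ_i (x_i/2 - (s/4) x_{i+1} + x_{i+2}/2)² + (1/16) Σ_i x_i²`,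
and its inverse `K₀` has the entries `9/2, s, 0, -s/2, -1, 0, 1/2` at the cyclic distances
`0, ..., 6`.  So `Σ₀` is in `M₁(G,H)`.  If `Σ = Σ₀ + X` is in `M₁(G,H)` too then
`K₀ X Σ⁻¹ = K₀ - Σ⁻¹` vanishes on the 24 non-edges of `G`, and the linear map sending `X`
(24 unknown entries) to the entries of `K₀ X K₀` at the 24 non-edges of `G` is injective.
Hence `Σ₀` is an isolated point of `M₁(G,H)`, which contains also the identity matrix.
-/

set_option autoImplicit false

namespace Pool.Agent.Results.MP_e0e142_ag.Disconnected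

open Matrix Topology

noncomputable section

/-- The Gaussian double Markovian model `M(G,H)`: positive definite real matrices `S` with
`(S⁻¹)_{ij} = 0` for the non-edges `ij` of `G` and `S_{ij} = 0` for the non-edges `ij` of `H`. -/
def Model {n : ℕ} (G H : SimpleGraph (Fin n)) : Set (Matrix (Fin n) (Fin n) ℝ) :=
  {S | S.PosDef ∧ (∀ i j, i ≠ j → ¬ G.Adj i j → S⁻¹ i j = 0) ∧
    (∀ i j, i ≠ j → ¬ H.Adj i j → S i j = 0)}

/-- The correlation model `M₁(G,H)`: the matrices of `M(G,H)` with unit diagonal. -/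
def CorrModel {n : ℕ} (G H : SimpleGraph (Fin n)) : Set (Matrix (Fin n) (Fin n) ℝ) :=
  {S | S ∈ Model G H ∧ ∀ i, S i i = 1}

/-- the graph `H`: cyclic distance `1` or `2` in `ℤ/12` -/
def gH : SimpleGraph (Fin 12) where
  Adj i j := j - i = 1 ∨ j - i = 2 ∨ j - i = 10 ∨ j - i = 11
  symm := ⟨by decide⟩
  loopless := ⟨by decide⟩

/-- the graph `G`: cyclic distance `1`, `3`, `4` or `6` in `ℤ/12` -/
def gG : SimpleGraph (Fin 12) where
  Adj i j := j - i = 1 ∨ j - i = 3 ∨ j - i = 4 ∨ j - i = 6 ∨ j - i = 8 ∨ j - i = 9 ∨ j - i = 11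
  symm := ⟨by decide⟩
  loopless := ⟨by decide⟩

instance : DecidableRel gH.Adj := fun i j =>
  inferInstanceAs (Decidable (j - i = 1 ∨ j - i = 2 ∨ j - i = 10 ∨ j - i = 11))

instance : DecidableRel gG.Adj := fun i j =>
  inferInstanceAs (Decidable (j - i = 1 ∨ j - i = 3 ∨ j - i = 4 ∨ j - i = 6 ∨ j - i = 8 ∨
    j - i = 9 ∨ j - i = 11))

/-- the square root of `7` -/
def s : ℝ := Real.sqrt 7

lemma hs : s ^ 2 = 7 := Real.sq_sqrt (by norm_num)

lemma hss : s * s = 7 := by rw [← sq]; exact hs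

/-- the entries of `Σ₀` -/
def sg : Fin 12 → ℝ := ![1, -s / 4, 1 / 4, 0, 0, 0, 0, 0, 0, 0, 1 / 4, -s / 4]

/-- the entries of `K₀` -/
def kp : Fin 12 → ℝ := ![9 / 2, s, 0, -s / 2, -1, 0, 1 / 2, 0, -1, -s / 2, 0, s]

/-- the entries of the square root factor -/
def bt : Fin 12 → ℝ := ![1 / 2, -s / 4, 1 / 2, 0, 0, 0, 0, 0, 0, 0, 0, 0]

/-- circulant matrix -/
def ci (f : Fin 12 → ℝ) : Matrix (Fin 12) (Fin 12) ℝ := fun i j => f (j - i)

lemma sum12 (f : Fin 12 → ℝ) : ∑ t, f t = f 0 + f 1 + f 2 + f 3 + f 4 + f 5 + f 6 + f 7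
    + f 8 + f 9 + f 10 + f 11 := by
  rw [Fin.sum_univ_castSucc, Fin.sum_univ_castSucc, Fin.sum_univ_castSucc,
    Fin.sum_univ_castSucc, Fin.sum_univ_eight]
  rfl

lemma ci_mul (f g : Fin 12 → ℝ) : ci f * ci g = ci (fun d => ∑ t, f t * g (d - t)) := by
  ext i j
  rw [Matrix.mul_apply]
  simp only [ci]
  rw [← Equiv.sum_comp (Equiv.addLeft i)]
  apply Finset.sum_congr rfl
  intro t _
  simp only [Equiv.coe_addLeft, add_sub_cancel_left]
  congr 2
  abel

lemma sg_kp : ci sg * ci kp = 1 := by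
  rw [ci_mul]
  ext i j
  have h : ∀ d : Fin 12, ∑ t, sg t * kp (d - t) = if d = 0 then 1 else 0 := by
    intro d
    rw [sum12]
    fin_cases d <;> simp [sg, kp] <;> ring_nf <;> (try rw [hs]) <;> norm_num
  simp only [ci]
  rw [h, Matrix.one_apply]
  by_cases hij : i = j
  · simp [hij]
  · rw [if_neg hij, if_neg]
    intro h0
    exact hij (sub_eq_zero.mp h0).symm

lemma ci_transpose (f : Fin 12 → ℝ) : (ci f)ᵀ = ci (fun d => f (-d)) := by
  ext i j
  simp [ci, Matrix.transpose_apply]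

lemma sg_decomp : ci sg = (1 / 16 : ℝ) • (1 : Matrix (Fin 12) (Fin 12) ℝ) + (ci bt)ᵀ * ci bt := by
  rw [ci_transpose, ci_mul]
  ext i j
  have h : ∀ d : Fin 12, ∑ t, bt (-t) * bt (d - t) = sg d - (1 / 16) * (if d = 0 then 1 else 0) := by
    intro d
    rw [sum12]
    fin_cases d <;> simp [sg, bt] <;> ring_nf <;> (try rw [hs]) <;> norm_num
  simp only [ci, Matrix.add_apply, Matrix.smul_apply, smul_eq_mul, Matrix.one_apply]
  rw [h]
  by_cases hij : i = j
  · simp [hij]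
  · rw [if_neg hij, if_neg]
    · ring
    · intro h0
      exact hij (sub_eq_zero.mp h0).symm

lemma sg_posDef : (ci sg).PosDef := by
  rw [sg_decomp]
  refine Matrix.PosDef.add_posSemidef ?_ ?_
  · exact Matrix.PosDef.smul Matrix.PosDef.one (by norm_num)
  · have := Matrix.posSemidef_conjTranspose_mul_self (ci bt)
    simpa using this

lemma sg_inv : (ci sg)⁻¹ = ci kp := Matrix.inv_eq_right_inv sg_kp

lemma kp_sg : ci kp * ci sg = 1 := by
  have := sg_kp
  exact mul_eq_one_comm.mp this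

lemma kp_nonG : ∀ i j : Fin 12, i ≠ j → ¬ gG.Adj i j → ci kp i j = 0 := by
  intro i j hij h
  have h1 : j - i = 0 ∨ j - i = 2 ∨ j - i = 5 ∨ j - i = 7 ∨ j - i = 10 := by
    revert i j; decide
  rcases h1 with h1 | h1 | h1 | h1 | h1
  · exact absurd (sub_eq_zero.mp h1).symm hij
  all_goals simp [ci, h1, kp]

lemma sg_nonH : ∀ i j : Fin 12, i ≠ j → ¬ gH.Adj i j → ci sg i j = 0 := by
  intro i j hij h
  have h1 : j - i = 0 ∨ j - i = 3 ∨ j - i = 4 ∨ j - i = 5 ∨ j - i = 6 ∨ j - i = 7 ∨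
      j - i = 8 ∨ j - i = 9 := by
    revert i j; decide
  rcases h1 with h1 | h1 | h1 | h1 | h1 | h1 | h1 | h1
  · exact absurd (sub_eq_zero.mp h1).symm hij
  all_goals simp [ci, h1, sg]

lemma S0_mem : ci sg ∈ CorrModel gG gH := by
  refine ⟨⟨sg_posDef, ?_, sg_nonH⟩, ?_⟩
  · rw [sg_inv]; exact kp_nonG
  · intro i
    simp [ci, sg]

lemma one_mem {n : ℕ} (G H : SimpleGraph (Fin n)) :
    (1 : Matrix (Fin n) (Fin n) ℝ) ∈ CorrModel G H := by
  refine ⟨⟨Matrix.PosDef.one, ?_, ?_⟩, ?_⟩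
  · intro i j hij _
    rw [inv_one, Matrix.one_apply_ne hij]
  · intro i j hij _
    rw [Matrix.one_apply_ne hij]
  · intro i
    exact Matrix.one_apply_eq i

lemma S0_ne_one : ci sg ≠ 1 := by
  intro h
  have := congrFun (congrFun h 0) 2
  simp [ci, sg, Matrix.one_apply] at this

lemma lin (P Q : Fin 12 → ℝ)
    (h2 : ∀ k : Fin 12, ∑ t, (kp (t - 1) * P (k + (t - 1)) + kp (t + 1) * P (k + t)
      + kp (t - 2) * Q (k + (t - 2)) + kp (t + 2) * Q (k + t)) * kp (2 - t) = 0)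
    (h5 : ∀ k : Fin 12, ∑ t, (kp (t - 1) * P (k + (t - 1)) + kp (t + 1) * P (k + t)
      + kp (t - 2) * Q (k + (t - 2)) + kp (t + 2) * Q (k + t)) * kp (5 - t) = 0) :
    P 0 = 0 ∧ Q 0 = 0 := by
  have e0 : (18) * (s * P 0) + (18) * (s * P 1) + (-9) * (s * P 2) + (-4) * (s * P 3) + (2) * (s * P 4) + (-1) * (s * P 5) + (-1) * (s * P 8) + (2) * (s * P 9) + (-4) * (s * P 10) + (-9) * (s * P 11) + (81) * Q 0 + (14) * Q 1 + (-18) * Q 2 + (7) * Q 3 + (4) * Q 4 + (5) * Q 6 + (4) * Q 8 + (7) * Q 9 + (-18) * Q 10 + (14) * Q 11 = 0 := by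
    have h := h2 0
    rw [sum12] at h
    simp [kp] at h
    linear_combination 4 * h - ((2) * Q 1 + (1) * Q 3 + (1) * Q 9 + (2) * Q 11) * hs
  have e1 : (18) * (s * P 1) + (18) * (s * P 2) + (-9) * (s * P 3) + (-4) * (s * P 4) + (2) * (s * P 5) + (-1) * (s * P 6) + (-1) * (s * P 9) + (2) * (s * P 10) + (-4) * (s * P 11) + (-9) * (s * P 0) + (81) * Q 1 + (14) * Q 2 + (-18) * Q 3 + (7) * Q 4 + (4) * Q 5 + (5) * Q 7 + (4) * Q 9 + (7) * Q 10 + (-18) * Q 11 + (14) * Q 0 = 0 := by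
    have h := h2 1
    rw [sum12] at h
    simp [kp] at h
    linear_combination 4 * h - ((2) * Q 0 + (2) * Q 2 + (1) * Q 4 + (1) * Q 10) * hs
  have e2 : (18) * (s * P 2) + (18) * (s * P 3) + (-9) * (s * P 4) + (-4) * (s * P 5) + (2) * (s * P 6) + (-1) * (s * P 7) + (-1) * (s * P 10) + (2) * (s * P 11) + (-4) * (s * P 0) + (-9) * (s * P 1) + (81) * Q 2 + (14) * Q 3 + (-18) * Q 4 + (7) * Q 5 + (4) * Q 6 + (5) * Q 8 + (4) * Q 10 + (7) * Q 11 + (-18) * Q 0 + (14) * Q 1 = 0 := by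
    have h := h2 2
    rw [sum12] at h
    simp [kp] at h
    linear_combination 4 * h - ((2) * Q 1 + (2) * Q 3 + (1) * Q 5 + (1) * Q 11) * hs
  have e3 : (18) * (s * P 3) + (18) * (s * P 4) + (-9) * (s * P 5) + (-4) * (s * P 6) + (2) * (s * P 7) + (-1) * (s * P 8) + (-1) * (s * P 11) + (2) * (s * P 0) + (-4) * (s * P 1) + (-9) * (s * P 2) + (81) * Q 3 + (14) * Q 4 + (-18) * Q 5 + (7) * Q 6 + (4) * Q 7 + (5) * Q 9 + (4) * Q 11 + (7) * Q 0 + (-18) * Q 1 + (14) * Q 2 = 0 := by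
    have h := h2 3
    rw [sum12] at h
    simp [kp] at h
    linear_combination 4 * h - ((1) * Q 0 + (2) * Q 2 + (2) * Q 4 + (1) * Q 6) * hs
  have e4 : (18) * (s * P 4) + (18) * (s * P 5) + (-9) * (s * P 6) + (-4) * (s * P 7) + (2) * (s * P 8) + (-1) * (s * P 9) + (-1) * (s * P 0) + (2) * (s * P 1) + (-4) * (s * P 2) + (-9) * (s * P 3) + (81) * Q 4 + (14) * Q 5 + (-18) * Q 6 + (7) * Q 7 + (4) * Q 8 + (5) * Q 10 + (4) * Q 0 + (7) * Q 1 + (-18) * Q 2 + (14) * Q 3 = 0 := by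
    have h := h2 4
    rw [sum12] at h
    simp [kp] at h
    linear_combination 4 * h - ((1) * Q 1 + (2) * Q 3 + (2) * Q 5 + (1) * Q 7) * hs
  have e5 : (18) * (s * P 5) + (18) * (s * P 6) + (-9) * (s * P 7) + (-4) * (s * P 8) + (2) * (s * P 9) + (-1) * (s * P 10) + (-1) * (s * P 1) + (2) * (s * P 2) + (-4) * (s * P 3) + (-9) * (s * P 4) + (81) * Q 5 + (14) * Q 6 + (-18) * Q 7 + (7) * Q 8 + (4) * Q 9 + (5) * Q 11 + (4) * Q 1 + (7) * Q 2 + (-18) * Q 3 + (14) * Q 4 = 0 := by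
    have h := h2 5
    rw [sum12] at h
    simp [kp] at h
    linear_combination 4 * h - ((1) * Q 2 + (2) * Q 4 + (2) * Q 6 + (1) * Q 8) * hs
  have e6 : (18) * (s * P 6) + (18) * (s * P 7) + (-9) * (s * P 8) + (-4) * (s * P 9) + (2) * (s * P 10) + (-1) * (s * P 11) + (-1) * (s * P 2) + (2) * (s * P 3) + (-4) * (s * P 4) + (-9) * (s * P 5) + (81) * Q 6 + (14) * Q 7 + (-18) * Q 8 + (7) * Q 9 + (4) * Q 10 + (5) * Q 0 + (4) * Q 2 + (7) * Q 3 + (-18) * Q 4 + (14) * Q 5 = 0 := by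
    have h := h2 6
    rw [sum12] at h
    simp [kp] at h
    linear_combination 4 * h - ((1) * Q 3 + (2) * Q 5 + (2) * Q 7 + (1) * Q 9) * hs
  have e7 : (18) * (s * P 7) + (18) * (s * P 8) + (-9) * (s * P 9) + (-4) * (s * P 10) + (2) * (s * P 11) + (-1) * (s * P 0) + (-1) * (s * P 3) + (2) * (s * P 4) + (-4) * (s * P 5) + (-9) * (s * P 6) + (81) * Q 7 + (14) * Q 8 + (-18) * Q 9 + (7) * Q 10 + (4) * Q 11 + (5) * Q 1 + (4) * Q 3 + (7) * Q 4 + (-18) * Q 5 + (14) * Q 6 = 0 := by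
    have h := h2 7
    rw [sum12] at h
    simp [kp] at h
    linear_combination 4 * h - ((1) * Q 4 + (2) * Q 6 + (2) * Q 8 + (1) * Q 10) * hs
  have e8 : (18) * (s * P 8) + (18) * (s * P 9) + (-9) * (s * P 10) + (-4) * (s * P 11) + (2) * (s * P 0) + (-1) * (s * P 1) + (-1) * (s * P 4) + (2) * (s * P 5) + (-4) * (s * P 6) + (-9) * (s * P 7) + (81) * Q 8 + (14) * Q 9 + (-18) * Q 10 + (7) * Q 11 + (4) * Q 0 + (5) * Q 2 + (4) * Q 4 + (7) * Q 5 + (-18) * Q 6 + (14) * Q 7 = 0 := by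
    have h := h2 8
    rw [sum12] at h
    simp [kp] at h
    linear_combination 4 * h - ((1) * Q 5 + (2) * Q 7 + (2) * Q 9 + (1) * Q 11) * hs
  have e9 : (18) * (s * P 9) + (18) * (s * P 10) + (-9) * (s * P 11) + (-4) * (s * P 0) + (2) * (s * P 1) + (-1) * (s * P 2) + (-1) * (s * P 5) + (2) * (s * P 6) + (-4) * (s * P 7) + (-9) * (s * P 8) + (81) * Q 9 + (14) * Q 10 + (-18) * Q 11 + (7) * Q 0 + (4) * Q 1 + (5) * Q 3 + (4) * Q 5 + (7) * Q 6 + (-18) * Q 7 + (14) * Q 8 = 0 := by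
    have h := h2 9
    rw [sum12] at h
    simp [kp] at h
    linear_combination 4 * h - ((1) * Q 0 + (1) * Q 6 + (2) * Q 8 + (2) * Q 10) * hs
  have e10 : (18) * (s * P 10) + (18) * (s * P 11) + (-9) * (s * P 0) + (-4) * (s * P 1) + (2) * (s * P 2) + (-1) * (s * P 3) + (-1) * (s * P 6) + (2) * (s * P 7) + (-4) * (s * P 8) + (-9) * (s * P 9) + (81) * Q 10 + (14) * Q 11 + (-18) * Q 0 + (7) * Q 1 + (4) * Q 2 + (5) * Q 4 + (4) * Q 6 + (7) * Q 7 + (-18) * Q 8 + (14) * Q 9 = 0 := by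
    have h := h2 10
    rw [sum12] at h
    simp [kp] at h
    linear_combination 4 * h - ((1) * Q 1 + (1) * Q 7 + (2) * Q 9 + (2) * Q 11) * hs
  have e11 : (18) * (s * P 11) + (18) * (s * P 0) + (-9) * (s * P 1) + (-4) * (s * P 2) + (2) * (s * P 3) + (-1) * (s * P 4) + (-1) * (s * P 7) + (2) * (s * P 8) + (-4) * (s * P 9) + (-9) * (s * P 10) + (81) * Q 11 + (14) * Q 0 + (-18) * Q 1 + (7) * Q 2 + (4) * Q 3 + (5) * Q 5 + (4) * Q 7 + (7) * Q 8 + (-18) * Q 9 + (14) * Q 10 = 0 := by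
    have h := h2 11
    rw [sum12] at h
    simp [kp] at h
    linear_combination 4 * h - ((2) * Q 0 + (1) * Q 2 + (1) * Q 8 + (2) * Q 10) * hs
  have g0 : (-18) * (s * P 0) + (-14) * (s * P 1) + (7) * (s * P 2) + (-14) * (s * P 3) + (-18) * (s * P 4) + (9) * (s * P 5) + (11) * (s * P 8) + (9) * (s * P 11) + (-63) * Q 0 + (14) * Q 1 + (14) * Q 2 + (-63) * Q 3 + (-14) * Q 4 + (-35) * Q 6 + (-35) * Q 9 + (-14) * Q 11 = 0 := by
    have h := h5 0
    rw [sum12] at h
    simp [kp] at h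
    linear_combination 4 * s * h - ((-2) * s * P 1 + (1) * s * P 2 + (-2) * s * P 3 + (1) * s * P 8 + (-9) * Q 0 + (2) * Q 1 + (2) * Q 2 + (-9) * Q 3 + (-2) * Q 4 + (-5) * Q 6 + (-5) * Q 9 + (-2) * Q 11) * hs
  have g1 : (-18) * (s * P 1) + (-14) * (s * P 2) + (7) * (s * P 3) + (-14) * (s * P 4) + (-18) * (s * P 5) + (9) * (s * P 6) + (11) * (s * P 9) + (9) * (s * P 0) + (-63) * Q 1 + (14) * Q 2 + (14) * Q 3 + (-63) * Q 4 + (-14) * Q 5 + (-35) * Q 7 + (-35) * Q 10 + (-14) * Q 0 = 0 := by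
    have h := h5 1
    rw [sum12] at h
    simp [kp] at h
    linear_combination 4 * s * h - ((-2) * s * P 2 + (1) * s * P 3 + (-2) * s * P 4 + (1) * s * P 9 + (-2) * Q 0 + (-9) * Q 1 + (2) * Q 2 + (2) * Q 3 + (-9) * Q 4 + (-2) * Q 5 + (-5) * Q 7 + (-5) * Q 10) * hs
  have g2 : (-18) * (s * P 2) + (-14) * (s * P 3) + (7) * (s * P 4) + (-14) * (s * P 5) + (-18) * (s * P 6) + (9) * (s * P 7) + (11) * (s * P 10) + (9) * (s * P 1) + (-63) * Q 2 + (14) * Q 3 + (14) * Q 4 + (-63) * Q 5 + (-14) * Q 6 + (-35) * Q 8 + (-35) * Q 11 + (-14) * Q 1 = 0 := by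
    have h := h5 2
    rw [sum12] at h
    simp [kp] at h
    linear_combination 4 * s * h - ((-2) * s * P 3 + (1) * s * P 4 + (-2) * s * P 5 + (1) * s * P 10 + (-2) * Q 1 + (-9) * Q 2 + (2) * Q 3 + (2) * Q 4 + (-9) * Q 5 + (-2) * Q 6 + (-5) * Q 8 + (-5) * Q 11) * hs
  have g3 : (-18) * (s * P 3) + (-14) * (s * P 4) + (7) * (s * P 5) + (-14) * (s * P 6) + (-18) * (s * P 7) + (9) * (s * P 8) + (11) * (s * P 11) + (9) * (s * P 2) + (-63) * Q 3 + (14) * Q 4 + (14) * Q 5 + (-63) * Q 6 + (-14) * Q 7 + (-35) * Q 9 + (-35) * Q 0 + (-14) * Q 2 = 0 := by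
    have h := h5 3
    rw [sum12] at h
    simp [kp] at h
    linear_combination 4 * s * h - ((-2) * s * P 4 + (1) * s * P 5 + (-2) * s * P 6 + (1) * s * P 11 + (-5) * Q 0 + (-2) * Q 2 + (-9) * Q 3 + (2) * Q 4 + (2) * Q 5 + (-9) * Q 6 + (-2) * Q 7 + (-5) * Q 9) * hs
  have g4 : (-18) * (s * P 4) + (-14) * (s * P 5) + (7) * (s * P 6) + (-14) * (s * P 7) + (-18) * (s * P 8) + (9) * (s * P 9) + (11) * (s * P 0) + (9) * (s * P 3) + (-63) * Q 4 + (14) * Q 5 + (14) * Q 6 + (-63) * Q 7 + (-14) * Q 8 + (-35) * Q 10 + (-35) * Q 1 + (-14) * Q 3 = 0 := by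
    have h := h5 4
    rw [sum12] at h
    simp [kp] at h
    linear_combination 4 * s * h - ((1) * s * P 0 + (-2) * s * P 5 + (1) * s * P 6 + (-2) * s * P 7 + (-5) * Q 1 + (-2) * Q 3 + (-9) * Q 4 + (2) * Q 5 + (2) * Q 6 + (-9) * Q 7 + (-2) * Q 8 + (-5) * Q 10) * hs
  have g5 : (-18) * (s * P 5) + (-14) * (s * P 6) + (7) * (s * P 7) + (-14) * (s * P 8) + (-18) * (s * P 9) + (9) * (s * P 10) + (11) * (s * P 1) + (9) * (s * P 4) + (-63) * Q 5 + (14) * Q 6 + (14) * Q 7 + (-63) * Q 8 + (-14) * Q 9 + (-35) * Q 11 + (-35) * Q 2 + (-14) * Q 4 = 0 := by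
    have h := h5 5
    rw [sum12] at h
    simp [kp] at h
    linear_combination 4 * s * h - ((1) * s * P 1 + (-2) * s * P 6 + (1) * s * P 7 + (-2) * s * P 8 + (-5) * Q 2 + (-2) * Q 4 + (-9) * Q 5 + (2) * Q 6 + (2) * Q 7 + (-9) * Q 8 + (-2) * Q 9 + (-5) * Q 11) * hs
  have g6 : (-18) * (s * P 6) + (-14) * (s * P 7) + (7) * (s * P 8) + (-14) * (s * P 9) + (-18) * (s * P 10) + (9) * (s * P 11) + (11) * (s * P 2) + (9) * (s * P 5) + (-63) * Q 6 + (14) * Q 7 + (14) * Q 8 + (-63) * Q 9 + (-14) * Q 10 + (-35) * Q 0 + (-35) * Q 3 + (-14) * Q 5 = 0 := by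
    have h := h5 6
    rw [sum12] at h
    simp [kp] at h
    linear_combination 4 * s * h - ((1) * s * P 2 + (-2) * s * P 7 + (1) * s * P 8 + (-2) * s * P 9 + (-5) * Q 0 + (-5) * Q 3 + (-2) * Q 5 + (-9) * Q 6 + (2) * Q 7 + (2) * Q 8 + (-9) * Q 9 + (-2) * Q 10) * hs
  have g7 : (-18) * (s * P 7) + (-14) * (s * P 8) + (7) * (s * P 9) + (-14) * (s * P 10) + (-18) * (s * P 11) + (9) * (s * P 0) + (11) * (s * P 3) + (9) * (s * P 6) + (-63) * Q 7 + (14) * Q 8 + (14) * Q 9 + (-63) * Q 10 + (-14) * Q 11 + (-35) * Q 1 + (-35) * Q 4 + (-14) * Q 6 = 0 := by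
    have h := h5 7
    rw [sum12] at h
    simp [kp] at h
    linear_combination 4 * s * h - ((1) * s * P 3 + (-2) * s * P 8 + (1) * s * P 9 + (-2) * s * P 10 + (-5) * Q 1 + (-5) * Q 4 + (-2) * Q 6 + (-9) * Q 7 + (2) * Q 8 + (2) * Q 9 + (-9) * Q 10 + (-2) * Q 11) * hs
  have g8 : (-18) * (s * P 8) + (-14) * (s * P 9) + (7) * (s * P 10) + (-14) * (s * P 11) + (-18) * (s * P 0) + (9) * (s * P 1) + (11) * (s * P 4) + (9) * (s * P 7) + (-63) * Q 8 + (14) * Q 9 + (14) * Q 10 + (-63) * Q 11 + (-14) * Q 0 + (-35) * Q 2 + (-35) * Q 5 + (-14) * Q 7 = 0 := by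
    have h := h5 8
    rw [sum12] at h
    simp [kp] at h
    linear_combination 4 * s * h - ((1) * s * P 4 + (-2) * s * P 9 + (1) * s * P 10 + (-2) * s * P 11 + (-2) * Q 0 + (-5) * Q 2 + (-5) * Q 5 + (-2) * Q 7 + (-9) * Q 8 + (2) * Q 9 + (2) * Q 10 + (-9) * Q 11) * hs
  have g9 : (-18) * (s * P 9) + (-14) * (s * P 10) + (7) * (s * P 11) + (-14) * (s * P 0) + (-18) * (s * P 1) + (9) * (s * P 2) + (11) * (s * P 5) + (9) * (s * P 8) + (-63) * Q 9 + (14) * Q 10 + (14) * Q 11 + (-63) * Q 0 + (-14) * Q 1 + (-35) * Q 3 + (-35) * Q 6 + (-14) * Q 8 = 0 := by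
    have h := h5 9
    rw [sum12] at h
    simp [kp] at h
    linear_combination 4 * s * h - ((-2) * s * P 0 + (1) * s * P 5 + (-2) * s * P 10 + (1) * s * P 11 + (-9) * Q 0 + (-2) * Q 1 + (-5) * Q 3 + (-5) * Q 6 + (-2) * Q 8 + (-9) * Q 9 + (2) * Q 10 + (2) * Q 11) * hs
  have g10 : (-18) * (s * P 10) + (-14) * (s * P 11) + (7) * (s * P 0) + (-14) * (s * P 1) + (-18) * (s * P 2) + (9) * (s * P 3) + (11) * (s * P 6) + (9) * (s * P 9) + (-63) * Q 10 + (14) * Q 11 + (14) * Q 0 + (-63) * Q 1 + (-14) * Q 2 + (-35) * Q 4 + (-35) * Q 7 + (-14) * Q 9 = 0 := by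
    have h := h5 10
    rw [sum12] at h
    simp [kp] at h
    linear_combination 4 * s * h - ((1) * s * P 0 + (-2) * s * P 1 + (1) * s * P 6 + (-2) * s * P 11 + (2) * Q 0 + (-9) * Q 1 + (-2) * Q 2 + (-5) * Q 4 + (-5) * Q 7 + (-2) * Q 9 + (-9) * Q 10 + (2) * Q 11) * hs
  have g11 : (-18) * (s * P 11) + (-14) * (s * P 0) + (7) * (s * P 1) + (-14) * (s * P 2) + (-18) * (s * P 3) + (9) * (s * P 4) + (11) * (s * P 7) + (9) * (s * P 10) + (-63) * Q 11 + (14) * Q 0 + (14) * Q 1 + (-63) * Q 2 + (-14) * Q 3 + (-35) * Q 5 + (-35) * Q 8 + (-14) * Q 10 = 0 := by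
    have h := h5 11
    rw [sum12] at h
    simp [kp] at h
    linear_combination 4 * s * h - ((-2) * s * P 0 + (1) * s * P 1 + (-2) * s * P 2 + (1) * s * P 7 + (2) * Q 0 + (2) * Q 1 + (-9) * Q 2 + (-2) * Q 3 + (-5) * Q 5 + (-5) * Q 8 + (-2) * Q 10 + (-9) * Q 11) * hs
  have hP : s * P 0 = 0 := by
    linear_combination (21/7040) * e0 + (-105/704) * e1 + (609/7040) * e2 + (-301/7040) * e3 + (-63/352) * e4 + (441/7040) * e5 + (441/7040) * e6 + (-63/352) * e7 + (-301/7040) * e8 + (609/7040) * e9 + (-105/704) * e10 + (21/7040) * e11 + (-909/9856) * g0 + (-27/448) * g1 + (1107/9856) * g2 + (-167/9856) * g3 + (-675/4928) * g4 + (-167/9856) * g5 + (1107/9856) * g6 + (-27/448) * g7 + (-909/9856) * g8 + (519/9856) * g9 + (-381/4928) * g10 + (519/9856) * g11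
  have hQ : Q 0 = 0 := by
    linear_combination (-51/3520) * e0 + (189/7040) * e1 + (81/7040) * e2 + (-7/160) * e3 + (381/7040) * e4 + (119/7040) * e5 + (-191/3520) * e6 + (119/7040) * e7 + (381/7040) * e8 + (-7/160) * e9 + (81/7040) * e10 + (189/7040) * e11 + (-45/4928) * g0 + (435/9856) * g1 + (-237/9856) * g2 + (-41/1232) * g3 + (337/9856) * g4 + (337/9856) * g5 + (-41/1232) * g6 + (-237/9856) * g7 + (435/9856) * g8 + (-45/4928) * g9 + (15/9856) * g10 + (15/9856) * g11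
  refine ⟨?_, hQ⟩
  have hs0 : s ≠ 0 := by
    intro h0
    have := hs
    rw [h0] at this
    norm_num at this
  exact (mul_eq_zero.mp hP).resolve_left hs0

lemma row (X : Matrix (Fin 12) (Fin 12) ℝ) (hsupp : ∀ i j, ¬ gH.Adj i j → X i j = 0)
    (f : Fin 12 → ℝ) (v : Fin 12) :
    ∑ u, f u * X u v = f (v - 1) * X (v - 1) v + f (v + 1) * X (v + 1) v
      + f (v - 2) * X (v - 2) v + f (v + 2) * X (v + 2) v := by
  have e10 : v + 10 = v - 2 := by revert v; decide
  have e11 : v + 11 = v - 1 := by clear e10; revert v; decide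
  have hz : ∀ t : Fin 12, t ≠ 1 → t ≠ 2 → t ≠ 10 → t ≠ 11 → X (v + t) v = 0 := by
    clear e10 e11
    intro t h1 h2 h3 h4
    apply hsupp
    revert v t
    decide
  rw [← Equiv.sum_comp (Equiv.addLeft v)]
  simp only [Equiv.coe_addLeft]
  rw [sum12, hz 0 (by decide) (by decide) (by decide) (by decide),
    hz 3 (by decide) (by decide) (by decide) (by decide),
    hz 4 (by decide) (by decide) (by decide) (by decide),
    hz 5 (by decide) (by decide) (by decide) (by decide),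
    hz 6 (by decide) (by decide) (by decide) (by decide),
    hz 7 (by decide) (by decide) (by decide) (by decide),
    hz 8 (by decide) (by decide) (by decide) (by decide),
    hz 9 (by decide) (by decide) (by decide) (by decide), e10, e11]
  ring

lemma eqn (X : Matrix (Fin 12) (Fin 12) ℝ) (hsupp : ∀ i j, ¬ gH.Adj i j → X i j = 0)
    (hsym : ∀ i j, X i j = X j i) (b k m : Fin 12) :
    (ci kp * X * ci kp) (b + k) (b + k + m) =
      ∑ t, (kp (t - 1) * X (b + (k + (t - 1))) (b + (k + (t - 1)) + 1)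
        + kp (t + 1) * X (b + (k + t)) (b + (k + t) + 1)
        + kp (t - 2) * X (b + (k + (t - 2))) (b + (k + (t - 2)) + 2)
        + kp (t + 2) * X (b + (k + t)) (b + (k + t) + 2)) * kp (m - t) := by
  rw [Matrix.mul_apply, ← Equiv.sum_comp (Equiv.addLeft (b + k))]
  apply Finset.sum_congr rfl
  intro t _
  rw [Matrix.mul_apply]
  simp only [ci, Equiv.coe_addLeft]
  rw [row X hsupp (fun u => kp (u - (b + k))) (b + k + t)]
  have a1 : b + k + m - (b + k + t) = m - t := by abel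
  have a2 : b + k + t - 1 - (b + k) = t - 1 := by abel
  have a3 : b + k + t + 1 - (b + k) = t + 1 := by abel
  have a4 : b + k + t - 2 - (b + k) = t - 2 := by abel
  have a5 : b + k + t + 2 - (b + k) = t + 2 := by abel
  have a6 : b + (k + (t - 1)) = b + k + t - 1 := by abel
  have a7 : b + k + t - 1 + 1 = b + k + t := by abel
  have a8 : b + (k + t) = b + k + t := by abel
  have a9 : b + (k + (t - 2)) = b + k + t - 2 := by abel
  have a10 : b + k + t - 2 + 2 = b + k + t := by abel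
  rw [a1, a2, a3, a4, a5, a6, a7, a8, a9, a10, hsym (b + k + t + 1), hsym (b + k + t + 2)]

lemma X_zero (X : Matrix (Fin 12) (Fin 12) ℝ) (hsupp : ∀ i j, ¬ gH.Adj i j → X i j = 0)
    (hsym : ∀ i j, X i j = X j i)
    (hK : ∀ i j, i ≠ j → ¬ gG.Adj i j → (ci kp * X * ci kp) i j = 0) : X = 0 := by
  have key : ∀ b : Fin 12, X b (b + 1) = 0 ∧ X b (b + 2) = 0 := by
    intro b
    have h := lin (fun t => X (b + t) (b + t + 1)) (fun t => X (b + t) (b + t + 2)) ?_ ?_
    · simpa using h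
    · intro k
      rw [← eqn X hsupp hsym b k 2]
      apply hK
      · generalize b + k = i; revert i; decide
      · generalize b + k = i; revert i; decide
    · intro k
      rw [← eqn X hsupp hsym b k 5]
      apply hK
      · generalize b + k = i; revert i; decide
      · generalize b + k = i; revert i; decide
  ext i j
  rw [Matrix.zero_apply]
  by_cases h : gH.Adj i j
  · rcases h with h | h | h | h
    · have : j = i + 1 := by revert i j; decide
      rw [this]; exact (key i).1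
    · have : j = i + 2 := by revert i j; decide
      rw [this]; exact (key i).2
    · have : i = j + 2 := by revert i j; decide
      rw [hsym, this]; exact (key j).2
    · have : i = j + 1 := by revert i j; decide
      rw [hsym, this]; exact (key j).1
  · exact hsupp i j h

/-- the linear map used for the isolation -/
def T : (Fin 12 → Fin 12 → ℝ) →ₗ[ℝ]
    (Fin 12 → Fin 12 → ℝ) × (Fin 12 → Fin 12 → ℝ) × (Fin 12 → Fin 12 → ℝ) where
  toFun X := (fun i j => if i ≠ j ∧ ¬ gG.Adj i j then (ci kp * (Matrix.of X) * ci kp) i j else 0,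
    fun i j => if gH.Adj i j then 0 else X i j, fun i j => X i j - X j i)
  map_add' X Y := by
    refine Prod.ext ?_ (Prod.ext ?_ ?_)
    · funext i j
      have : (Matrix.of (X + Y) : Matrix (Fin 12) (Fin 12) ℝ) = Matrix.of X + Matrix.of Y := rfl
      simp only [Prod.fst_add, Pi.add_apply, this, Matrix.mul_add, Matrix.add_mul,
        Matrix.add_apply]
      split_ifs <;> simp
    · funext i j
      simp only [Prod.snd_add, Prod.fst_add, Pi.add_apply]
      split_ifs <;> simp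
    · funext i j
      simp only [Prod.snd_add, Pi.add_apply]
      ring
  map_smul' c X := by
    refine Prod.ext ?_ (Prod.ext ?_ ?_)
    · funext i j
      have : (Matrix.of (c • X) : Matrix (Fin 12) (Fin 12) ℝ) = c • Matrix.of X := rfl
      simp only [Prod.smul_fst, Pi.smul_apply, this, Matrix.mul_smul, Matrix.smul_mul,
        Matrix.smul_apply, RingHom.id_apply]
      split_ifs <;> simp
    · funext i j
      simp only [Prod.smul_snd, Prod.smul_fst, Pi.smul_apply, RingHom.id_apply]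
      split_ifs <;> simp
    · funext i j
      simp only [Prod.smul_snd, Pi.smul_apply, RingHom.id_apply, smul_eq_mul]
      ring

lemma T_ker : LinearMap.ker T = ⊥ := by
  rw [LinearMap.ker_eq_bot']
  intro X hX
  have h1 := congrArg Prod.fst hX
  have h2 := congrArg (fun z => z.2.1) hX
  have h3 := congrArg (fun z => z.2.2) hX
  have := X_zero (Matrix.of X) ?_ ?_ ?_
  · exact this
  · intro i j hij
    have := congrFun (congrFun h2 i) j
    simp only [T, LinearMap.coe_mk, AddHom.coe_mk, if_neg hij] at this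
    exact this
  · intro i j
    have := congrFun (congrFun h3 i) j
    simp only [T, LinearMap.coe_mk, AddHom.coe_mk] at this
    exact sub_eq_zero.mp this
  · intro i j hij hG
    have := congrFun (congrFun h1 i) j
    simp only [T, LinearMap.coe_mk, AddHom.coe_mk] at this
    rw [if_pos ⟨hij, hG⟩] at this
    exact this

lemma kp_bound (d : Fin 12) : |kp d| ≤ 5 := by
  have h1 : s ≤ 3 := by
    have := hs
    have h0 : 0 ≤ s := Real.sqrt_nonneg _
    nlinarith
  have h0 : 0 ≤ s := Real.sqrt_nonneg _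
  rw [abs_le]
  constructor <;> fin_cases d <;> simp [kp] <;> linarith

lemma prod_bound (X D : Matrix (Fin 12) (Fin 12) ℝ) (x δ : ℝ) (hx : 0 ≤ x)
    (hX : ∀ i j, |X i j| ≤ x) (hD : ∀ i j, |D i j| ≤ δ) (i j : Fin 12) :
    |(ci kp * X * D) i j| ≤ 720 * x * δ := by
  have hδ : 0 ≤ δ := (abs_nonneg _).trans (hD 0 0)
  have h1 : ∀ v, |(ci kp * X) i v| ≤ 60 * x := by
    intro v
    rw [Matrix.mul_apply]
    refine (Finset.abs_sum_le_sum_abs _ _).trans ?_
    have : ∀ u ∈ (Finset.univ : Finset (Fin 12)), |ci kp i u * X u v| ≤ 5 * x := by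
      intro u _
      rw [abs_mul]
      exact mul_le_mul (kp_bound _) (hX _ _) (abs_nonneg _) (by norm_num)
    refine (Finset.sum_le_card_nsmul _ _ _ this).trans ?_
    simp only [Finset.card_univ, Fintype.card_fin, nsmul_eq_mul]
    push_cast
    linarith
  rw [Matrix.mul_apply]
  refine (Finset.abs_sum_le_sum_abs _ _).trans ?_
  have : ∀ v ∈ (Finset.univ : Finset (Fin 12)), |(ci kp * X) i v * D v j| ≤ 60 * x * δ := by
    intro v _
    rw [abs_mul]
    exact mul_le_mul (h1 v) (hD _ _) (abs_nonneg _) (by positivity)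
  refine (Finset.sum_le_card_nsmul _ _ _ this).trans ?_
  simp only [Finset.card_univ, Fintype.card_fin, nsmul_eq_mul]
  push_cast
  linarith

theorem isolated : ∃ U : Set (Matrix (Fin 12) (Fin 12) ℝ), IsOpen U ∧ ci sg ∈ U ∧
    ∀ S ∈ CorrModel gG gH, S ∈ U → S = ci sg := by
  obtain ⟨C, hC0, hC⟩ := LinearMap.exists_antilipschitzWith T T_ker
  set δ : ℝ := 1 / (1440 * ((C : ℝ) + 1)) with hδ
  have hCr : (0 : ℝ) < C := by exact_mod_cast hC0
  have hδ0 : 0 < δ := by rw [hδ]; positivity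
  have hcont : ContinuousAt (fun S : Matrix (Fin 12) (Fin 12) ℝ => S⁻¹) (ci sg) := by
    apply continuousAt_matrix_inv
    rw [Ring.inverse_eq_inv']
    exact continuousAt_inv₀ sg_posDef.det_pos.ne'
  have hev : ∀ᶠ S in 𝓝 (ci sg), ∀ i j, |(S⁻¹ - ci kp) i j| < δ := by
    rw [Filter.eventually_all]
    intro i
    rw [Filter.eventually_all]
    intro j
    have h1 : ContinuousAt (fun S : Matrix (Fin 12) (Fin 12) ℝ => |(S⁻¹ - ci kp) i j|)
        (ci sg) := by
      have h2 : ContinuousAt (fun S : Matrix (Fin 12) (Fin 12) ℝ => S⁻¹ i j) (ci sg) := by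
        have h3 : Continuous (fun S : Matrix (Fin 12) (Fin 12) ℝ => S i j) := by fun_prop
        exact (h3.continuousAt).comp hcont
      have h4 : ContinuousAt (fun S : Matrix (Fin 12) (Fin 12) ℝ => |S⁻¹ i j - ci kp i j|)
          (ci sg) := (h2.sub continuousAt_const).abs
      exact h4
    have h5 : |((ci sg)⁻¹ - ci kp) i j| < δ := by
      rw [sg_inv, sub_self, Matrix.zero_apply, abs_zero]
      exact hδ0
    exact h1.eventually_lt continuousAt_const h5
  obtain ⟨U, hU, hUo, hUm⟩ := mem_nhds_iff.mp hev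
  refine ⟨U, hUo, hUm, ?_⟩
  intro S hS hSU
  have hSδ := hU hSU
  obtain ⟨⟨hpd, hinv, hsup⟩, hdiag⟩ := hS
  have hdet : IsUnit S.det := hpd.det_pos.ne'.isUnit
  let X : Fin 12 → Fin 12 → ℝ := fun i j => S i j - ci sg i j
  have hXm : (Matrix.of X : Matrix (Fin 12) (Fin 12) ℝ) = S - ci sg := rfl
  have hXsup : ∀ i j, ¬ gH.Adj i j → X i j = 0 := by
    intro i j hij
    by_cases h : i = j
    · subst h
      simp only [X]
      rw [hdiag, S0_mem.2, sub_self]
    · simp only [X]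
      rw [hsup i j h hij, sg_nonH i j h hij, sub_self]
  have hXsym : ∀ i j, X i j = X j i := by
    intro i j
    have h1 : S j i = S i j := by
      have := congrFun (congrFun hpd.1 i) j
      simpa [Matrix.conjTranspose_apply] using this
    have h2 : ci sg j i = ci sg i j := by
      have := congrFun (congrFun sg_posDef.1 i) j
      simpa [Matrix.conjTranspose_apply] using this
    simp only [X]
    rw [h1, h2]
  have hKX : ∀ i j, i ≠ j → ¬ gG.Adj i j →
      (ci kp * Matrix.of X * ci kp) i j = - (ci kp * Matrix.of X * (S⁻¹ - ci kp)) i j := by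
    intro i j hij hG
    have h1 : ci kp * Matrix.of X * S⁻¹ = ci kp - S⁻¹ := by
      rw [hXm, Matrix.mul_sub, Matrix.sub_mul, Matrix.mul_assoc, Matrix.mul_nonsing_inv _ hdet,
        kp_sg, Matrix.mul_one, Matrix.one_mul]
    have h2 : (ci kp * Matrix.of X * S⁻¹) i j = 0 := by
      rw [h1, Matrix.sub_apply, kp_nonG i j hij hG, hinv i j hij hG, sub_self]
    rw [Matrix.mul_sub, Matrix.sub_apply, h2]
    ring
  have hXn : ‖X‖ ≤ C * ‖T X‖ := by
    have := hC.le_mul_dist X 0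
    simpa using this
  have hXij : ∀ i j, |(Matrix.of X : Matrix (Fin 12) (Fin 12) ℝ) i j| ≤ ‖X‖ := by
    intro i j
    exact (norm_le_pi_norm (X i) j).trans (norm_le_pi_norm X i)
  have hT : ‖T X‖ ≤ 720 * ‖X‖ * δ := by
    have hnn : 0 ≤ 720 * ‖X‖ * δ := by positivity
    refine (norm_prod_le_iff).mpr ⟨?_, norm_prod_le_iff.mpr ⟨?_, ?_⟩⟩
    · rw [pi_norm_le_iff_of_nonneg hnn]
      intro i
      rw [pi_norm_le_iff_of_nonneg hnn]
      intro j
      simp only [T, LinearMap.coe_mk, AddHom.coe_mk]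
      split_ifs with h
      · rw [hKX i j h.1 h.2, norm_neg, Real.norm_eq_abs]
        exact prod_bound _ _ _ _ (norm_nonneg _) hXij (fun i j => (hSδ i j).le) i j
      · simpa using hnn
    · rw [pi_norm_le_iff_of_nonneg hnn]
      intro i
      rw [pi_norm_le_iff_of_nonneg hnn]
      intro j
      simp only [T, LinearMap.coe_mk, AddHom.coe_mk]
      split_ifs with h
      · simpa using hnn
      · rw [hXsup i j h]; simpa using hnn
    · rw [pi_norm_le_iff_of_nonneg hnn]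
      intro i
      rw [pi_norm_le_iff_of_nonneg hnn]
      intro j
      simp only [T, LinearMap.coe_mk, AddHom.coe_mk]
      rw [hXsym i j, sub_self]; simpa using hnn
  have hX0 : ‖X‖ = 0 := by
    have h1 : ‖X‖ ≤ C * (720 * ‖X‖ * δ) := hXn.trans (mul_le_mul_of_nonneg_left hT hCr.le)
    have h2 : (C : ℝ) * (720 * δ) ≤ 1 / 2 := by
      rw [hδ]
      have : (C : ℝ) * (720 * (1 / (1440 * ((C : ℝ) + 1)))) = (C / (C + 1)) * (1 / 2) := by
        field_simp
        ring
      rw [this]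
      have h3 : (C : ℝ) / (C + 1) ≤ 1 := by
        rw [div_le_one (by positivity)]
        linarith
      nlinarith
    have h3 : 0 ≤ ‖X‖ := norm_nonneg X
    have h4 : C * (720 * ‖X‖ * δ) = (C * (720 * δ)) * ‖X‖ := by ring
    have h5 : (C * (720 * δ)) * ‖X‖ ≤ 1 / 2 * ‖X‖ := mul_le_mul_of_nonneg_right h2 h3
    linarith
  have hX00 : X = 0 := norm_eq_zero.mp hX0
  ext i j
  have := congrFun (congrFun hX00 i) j
  simp only [X, Pi.zero_apply] at this
  linarith

theorem corr_not_preconnected : ¬ IsPreconnected (CorrModel gG gH) := by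
  intro h
  obtain ⟨U, hUo, hUm, hU⟩ := isolated
  have hV : IsOpen ({ci sg}ᶜ : Set (Matrix (Fin 12) (Fin 12) ℝ)) := isOpen_compl_singleton
  obtain ⟨S, hS, hSU, hSV⟩ := h U {ci sg}ᶜ hUo hV
    (by
      intro S _
      by_cases hS : S = ci sg
      · left; rw [hS]; exact hUm
      · right; exact hS)
    ⟨ci sg, S0_mem, hUm⟩ ⟨1, one_mem gG gH, fun h => S0_ne_one h.symm⟩
  exact hSV (hU S hS hSU)

/-- rescaling of a positive definite matrix to unit diagonal -/
def nrm {n : ℕ} (S : Matrix (Fin n) (Fin n) ℝ) : Matrix (Fin n) (Fin n) ℝ :=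
  fun i j => (Real.sqrt (S i i))⁻¹ * S i j * (Real.sqrt (S j j))⁻¹

lemma nrm_eq {n : ℕ} (S : Matrix (Fin n) (Fin n) ℝ) :
    nrm S = Matrix.diagonal (fun i => (Real.sqrt (S i i))⁻¹) * S *
      Matrix.diagonal (fun i => (Real.sqrt (S i i))⁻¹) := by
  ext i j
  rw [Matrix.mul_diagonal, Matrix.diagonal_mul]
  rfl

lemma nrm_mem {n : ℕ} (G H : SimpleGraph (Fin n)) (S : Matrix (Fin n) (Fin n) ℝ)
    (hS : S ∈ Model G H) : nrm S ∈ CorrModel G H := by
  obtain ⟨hpd, hinv, hsup⟩ := hS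
  have hpos : ∀ i, 0 < Real.sqrt (S i i) := fun i => Real.sqrt_pos.mpr hpd.diag_pos
  have hdet : IsUnit S.det := hpd.det_pos.ne'.isUnit
  have hDE : Matrix.diagonal (fun i => (Real.sqrt (S i i))⁻¹) *
      Matrix.diagonal (fun i => Real.sqrt (S i i)) = 1 := by
    rw [Matrix.diagonal_mul_diagonal, ← Matrix.diagonal_one]
    congr 1
    funext i
    exact inv_mul_cancel₀ (hpos i).ne'
  have hI : (nrm S)⁻¹ = Matrix.diagonal (fun i => Real.sqrt (S i i)) * S⁻¹ *
      Matrix.diagonal (fun i => Real.sqrt (S i i)) := by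
    apply Matrix.inv_eq_right_inv
    rw [nrm_eq]
    calc Matrix.diagonal (fun i => (Real.sqrt (S i i))⁻¹) * S *
          Matrix.diagonal (fun i => (Real.sqrt (S i i))⁻¹) *
          (Matrix.diagonal (fun i => Real.sqrt (S i i)) * S⁻¹ *
            Matrix.diagonal (fun i => Real.sqrt (S i i)))
        = Matrix.diagonal (fun i => (Real.sqrt (S i i))⁻¹) * S *
          (Matrix.diagonal (fun i => (Real.sqrt (S i i))⁻¹) *
          Matrix.diagonal (fun i => Real.sqrt (S i i))) * S⁻¹ *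
            Matrix.diagonal (fun i => Real.sqrt (S i i)) := by
          simp only [Matrix.mul_assoc]
      _ = Matrix.diagonal (fun i => (Real.sqrt (S i i))⁻¹) * (S * S⁻¹) *
            Matrix.diagonal (fun i => Real.sqrt (S i i)) := by
          rw [hDE, Matrix.mul_one]
          simp only [Matrix.mul_assoc]
      _ = 1 := by
          rw [Matrix.mul_nonsing_inv _ hdet, Matrix.mul_one, hDE]
  refine ⟨⟨?_, ?_, ?_⟩, ?_⟩
  · have h1 : (Matrix.diagonal (fun i => (Real.sqrt (S i i))⁻¹))ᴴ =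
        Matrix.diagonal (fun i => (Real.sqrt (S i i))⁻¹) := by
      rw [Matrix.diagonal_conjTranspose]
      congr 1
    have h2 := hpd.conjTranspose_mul_mul_same
      (B := Matrix.diagonal (fun i => (Real.sqrt (S i i))⁻¹)) (by
        intro x y h
        funext i
        have := congrFun h i
        simp only [Matrix.mulVec_diagonal] at this
        exact mul_left_cancel₀ (inv_ne_zero (hpos i).ne') this)
    rw [h1] at h2
    rw [nrm_eq]
    exact h2
  · intro i j hij hG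
    rw [hI, Matrix.mul_diagonal, Matrix.diagonal_mul, hinv i j hij hG]
    ring
  · intro i j hij hH
    simp only [nrm]
    rw [hsup i j hij hH]
    ring
  · intro i
    simp only [nrm]
    have h := hpos i
    have h2 : Real.sqrt (S i i) * Real.sqrt (S i i) = S i i :=
      Real.mul_self_sqrt hpd.diag_pos.le
    have h3 : (Real.sqrt (S i i))⁻¹ * S i i * (Real.sqrt (S i i))⁻¹
        = (Real.sqrt (S i i))⁻¹ * (Real.sqrt (S i i) * Real.sqrt (S i i)) *
          (Real.sqrt (S i i))⁻¹ := by rw [h2]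
    rw [h3]
    field_simp

lemma nrm_fix {n : ℕ} (G H : SimpleGraph (Fin n)) (S : Matrix (Fin n) (Fin n) ℝ)
    (hS : S ∈ CorrModel G H) : nrm S = S := by
  ext i j
  simp only [nrm]
  rw [hS.2 i, hS.2 j, Real.sqrt_one]
  ring

lemma nrm_image {n : ℕ} (G H : SimpleGraph (Fin n)) : nrm '' (Model G H) = CorrModel G H := by
  ext S
  constructor
  · rintro ⟨R, hR, rfl⟩
    exact nrm_mem G H R hR
  · intro hS
    exact ⟨S, hS.1, nrm_fix G H S hS⟩

lemma nrm_cont {n : ℕ} (G H : SimpleGraph (Fin n)) : ContinuousOn nrm (Model G H) := by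
  refine continuousOn_pi.mpr fun i => continuousOn_pi.mpr fun j => ?_
  have hent : ∀ a b : Fin n, Continuous (fun S : Matrix (Fin n) (Fin n) ℝ => S a b) := by
    intro a b; fun_prop
  have hsq : ∀ a : Fin n, ContinuousOn
      (fun S : Matrix (Fin n) (Fin n) ℝ => (Real.sqrt (S a a))⁻¹) (Model G H) := by
    intro a
    apply ContinuousOn.inv₀
    · exact ((hent a a).sqrt).continuousOn
    · intro S hS
      exact (Real.sqrt_pos.mpr hS.1.diag_pos).ne'
  exact ((hsq i).mul (hent i j).continuousOn).mul (hsq j)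

lemma model_not_preconnected {n : ℕ} (G H : SimpleGraph (Fin n))
    (h : ¬ IsPreconnected (CorrModel G H)) : ¬ IsPreconnected (Model G H) := by
  intro h1
  apply h
  rw [← nrm_image]
  exact h1.image nrm (nrm_cont G H)

/-- **Negative answer to Q1.**  There are graphs `G`, `H` on `12` vertices such that neither the
Gaussian double Markovian model `M(G,H)` nor its correlation model `M₁(G,H)` is connected;
moreover `M₁(G,H)` contains a matrix `S` different from the identity matrix (which is in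
`M₁(G,H)` too) that is an isolated point of `M₁(G,H)`. -/
theorem result : ∃ G H : SimpleGraph (Fin 12),
    ¬ IsPreconnected (Model G H) ∧ ¬ IsPreconnected (CorrModel G H) ∧
    1 ∈ CorrModel G H ∧
    ∃ S ∈ CorrModel G H, S ≠ 1 ∧ ∃ U : Set (Matrix (Fin 12) (Fin 12) ℝ), IsOpen U ∧
      CorrModel G H ∩ U = {S} := by
  refine ⟨gG, gH, model_not_preconnected _ _ corr_not_preconnected, corr_not_preconnected,
    one_mem _ _, ci sg, S0_mem, S0_ne_one, ?_⟩
  obtain ⟨U, hUo, hUm, hU⟩ := isolated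
  refine ⟨U, hUo, ?_⟩
  ext S
  constructor
  · rintro ⟨hS, hSU⟩
    exact hU S hS hSU
  · intro hS
    rw [Set.mem_singleton_iff] at hS
    rw [hS]
    exact ⟨S0_mem, hUm⟩

end

end Pool.Agent.Results.MP_e0e142_ag.Disconnected
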